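import Mathlib
import Pool.Agent.H.MP_383f58_co.A

namespace Pool.Agent.Results.MP_383f58_co.Counter

open SimpleGraph

theorem result : ∀ c : ℕ, ∃ (n : ℕ) (V : Type) (G : SimpleGraph V),
    Nat.card V = n ∧ 20 ≤ n ∧ c ≤ n ∧
    (∀ s : Finset V, G.IsClique s → ∃ t : Finset V, G.IsNClique 4 t ∧ s ⊆ t) ∧
    (∀ s : Finset V, G.IsNClique 3 s → {t : Finset V | G.IsNClique 4 t ∧ s ⊆ t}.ncard = 2) ∧
    c * (((cycleGraph (n / 2))ᶜ ⊕g (cycleGraph (n - n / 2))ᶜ)ᶜ.cliqueSet 4).ncard <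
      (G.cliqueSet 4).ncard := by
  intro c
  have hp : 3 * c + 1 < 4 ^ (3 * c + 1) := Nat.lt_pow_self (by norm_num)
  have hq : 4 ≤ 4 ^ (3 * c + 1) := by
    rw [pow_succ]
    have : 0 < 4 ^ (3 * c) := by positivity
    omega
  refine ⟨4 ^ (3 * c + 1) * 5, Pool.Agent.H.MP_383f58_co.V (3 * c),
    Pool.Agent.H.MP_383f58_co.G (3 * c), by simp, by omega, by omega,
    Pool.Agent.H.MP_383f58_co.pure _, Pool.Agent.H.MP_383f58_co.two _, ?_⟩
  refine lt_of_le_of_lt (Nat.mul_le_mul_left c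
    (Pool.Agent.H.MP_383f58_co.few' _ _ (by omega) (by omega))) ?_
  exact (Pool.Agent.H.MP_383f58_co.grow c _ rfl).trans_le (Pool.Agent.H.MP_383f58_co.many _)

end Pool.Agent.Results.MP_383f58_co.Counter
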